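import Pool.Agent.H410R2.EDMain

set_option autoImplicit false

namespace Pool.Agent.Results.MP_f85a7a_nt.AllRuns

/-- For every k there are infinitely many n such that n, n+1, ..., n+k-1 all have the same number of
positive divisors. -/
theorem result : ∀ k : ℕ,
    Set.Infinite {n : ℕ | ∀ j < k, (Nat.divisors (n + j)).card = (Nat.divisors n).card} := by
  intro k
  rw [Set.infinite_iff_exists_gt]
  intro N
  obtain ⟨y, hy, h⟩ := Pool.Agent.H410R2.ED.equalRuns k (N + 1)
  exact ⟨y, fun j hj => h j hj, by omega⟩

end Pool.Agent.Results.MP_f85a7a_nt.AllRuns
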